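import Pool.Agent.Lib.MP_28303a_al.NT.A.Iface

/-! # Row ZH: central elements on the homology -/

set_option autoImplicit false
set_option linter.unusedSectionVars false
set_option linter.unusedVariables false

namespace Pool.Agent.NegK.NT.H76

universe u

open CategoryTheory Limits Opposite

section

variable {k : Type u} [Ring k] {Γ : Type u} [Group Γ] {B : Type u} [MulAction Γ B] {P : Pre Γ B}

/-- The values of an epimorphism of functors are surjective. -/
theorem surj_of_epi {M N : Fn k P} (f : M ⟶ N) [Epi f] (U : (Bx P)ᵒᵖ) :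
    Function.Surjective ((f.app U).hom) := by
  have : Epi (f.app U) := inferInstance
  exact (ModuleCat.epi_iff_surjective _).1 this

/-- The values of a monomorphism of functors are injective. -/
theorem inj_of_mono {M N : Fn k P} (f : M ⟶ N) [Mono f] (U : (Bx P)ᵒᵖ) :
    Function.Injective ((f.app U).hom) := by
  have : Mono (f.app U) := inferInstance
  exact (ModuleCat.mono_iff_injective _).1 this

theorem cyclesMap_smul (C : CochainComplex (Fn k P) ℤ) (g : C ⟶ C) (z : k) (n : ℤ) (U : (Bx P)ᵒᵖ)
    (hg : ∀ x : (C.X n).obj U, (((g.f n).app U).hom x : (C.X n).obj U) = z • x)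
    (y : (C.cycles n).obj U) :
    ((((HomologicalComplex.cyclesMap g n).app U).hom y : (C.cycles n).obj U)) = z • y := by
  apply inj_of_mono (C.iCycles n) U
  have h := HomologicalComplex.cyclesMap_i g n
  have h1 := congrArg (fun f => (f.app U).hom y) h
  simp only [NatTrans.comp_app, ModuleCat.hom_comp, LinearMap.comp_apply] at h1
  rw [h1, hg, map_smul]

theorem homologyMap_smul (C : CochainComplex (Fn k P) ℤ) (g : C ⟶ C) (z : k) (n : ℤ)
    (U : (Bx P)ᵒᵖ) (hg : ∀ x : (C.X n).obj U, (((g.f n).app U).hom x : (C.X n).obj U) = z • x)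
    (y : (C.homology n).obj U) :
    ((((HomologicalComplex.homologyMap g n).app U).hom y : (C.homology n).obj U)) = z • y := by
  obtain ⟨y, rfl⟩ := surj_of_epi (C.homologyπ n) U y
  have h := HomologicalComplex.homologyπ_naturality g n
  have h1 := congrArg (fun f => (f.app U).hom y) h
  simp only [NatTrans.comp_app, ModuleCat.hom_comp, LinearMap.comp_apply] at h1
  rw [h1, cyclesMap_smul C g z n U hg, map_smul]

/-- Transport along an isomorphism. -/
theorem conj_smul {M N : Fn k P} (e : M ≅ N) (f : M ⟶ M) (h : N ⟶ N)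
    (H : f ≫ e.hom = e.hom ≫ h) (z : k) (U : (Bx P)ᵒᵖ)
    (hz : ∀ w : N.obj U, ((h.app U).hom w : N.obj U) = z • w) (y : M.obj U) :
    ((f.app U).hom y : M.obj U) = z • y := by
  apply inj_of_mono e.hom U
  have h1 := congrArg (fun f => (f.app U).hom y) H
  simp only [NatTrans.comp_app, ModuleCat.hom_comp, LinearMap.comp_apply] at h1
  rw [h1, hz, map_smul]

end

/-- Row ZH. -/
theorem zh : ZhStatement.{u} := by
  intro k _ Γ _ B _ P z hz n X U y
  let C : CochainComplex (Fn k P) ℤ :=
    ((Loc.ev (k := k) (P := P)).mapHomologicalComplex (ComplexShape.up ℤ)).obj X.as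
  let g : C ⟶ C :=
    ((Loc.ev (k := k) (P := P)).mapHomologicalComplex (ComplexShape.up ℤ)).map (cenC z hz X.as)
  let e := (HomotopyCategory.homologyFunctorFactors (Fn k P) (ComplexShape.up ℤ) n).app C
  have hn : (hq k P n).map ((zz z hz).app X) ≫ e.hom =
      e.hom ≫ HomologicalComplex.homologyMap g n :=
    (HomotopyCategory.homologyFunctorFactors (Fn k P) (ComplexShape.up ℤ) n).hom.naturality g
  exact conj_smul e _ _ hn z U (fun w => homologyMap_smul C g z n U (fun x => by
    refine Subtype.ext ?_
    have h1 := Loc.lin_cen (P := P) z hz (X.as.X n) (show (X.as.X n).F from x.1)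
    rw [← Loc.smul_one_single'] at h1
    exact h1) w) y

end Pool.Agent.NegK.NT.H76
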